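import Pool.Agent.MP_646863_pr.Proof

/-!
# A Liouville group that is not algebraically recurrent (MP_646863_pr, Q1: disproof)

The definitions are in `Pool/Agent/MP_646863_pr/Defs.lean` and the proof is in
`Pool/Agent/MP_646863_pr/Proof.lean`.
-/

open MeasureTheory Filter Pool.Agent.MP_646863_pr

namespace Pool.Agent.Results.MP_646863_pr.LiouvilleNotAR

/-- There are a finitely generated group `G` with a finite symmetric generating set `S` with
respect to which `G` is Liouville, and a symmetric probability measure `μ` on `G` with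
`⟨supp μ⟩ = G`, such that `(G, μ)` is not algebraically recurrent. Moreover `μ` itself has the
Liouville property, and almost surely the identity lies in only finitely many of the semigroups
`S_n`. -/
theorem result :
    ∃ (G : Type) (_ : Group G) (S : Finset G) (μ : PMF G),
      (1 : G) ∉ S ∧ (∀ s ∈ S, s⁻¹ ∈ S) ∧ Subgroup.closure (S : Set G) = ⊤ ∧ IsLiouville S ∧
      (∀ g, μ g⁻¹ = μ g) ∧ Subgroup.closure μ.support = ⊤ ∧ IsLiouvilleMeasure μ ∧
      (∃ n : ℕ, 1 ≤ n ∧ 0 < pathLaw μ {ζ | tailSemigroup ζ n ≠ ⊤}) ∧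
      (∀ᵐ ζ ∂(pathLaw μ), ∃ N : ℕ, ∀ n, N ≤ n → (1 : G) ∉ tailSemigroup ζ n) :=
  Pool.Agent.MP_646863_pr.main

end Pool.Agent.Results.MP_646863_pr.LiouvilleNotAR
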